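import Pool.Agent.Lib.MP_8eacf3_gt.Action

set_option autoImplicit false

/-!
# MP_8eacf3_gt: the question is equivalent to the closing problem for maximal flats
-/

namespace Pool.Agent.Results.MP_8eacf3_gt.FlatClosing

open Pool.Agent.Lib.MP_8eacf3_gt

/-- Q1 holds for all `n ≥ 3` if and only if every geometric action on a locally compact,
geodesically complete CAT(0) space of any rank `m ≥ 2` (without any hypothesis on the Tits
boundary) has a periodic `m`-flat. More precisely, the statement for the spaces of Tits diameter
`π` and of rank `n + 1` implies the one for all spaces of rank `n`, which implies the statement for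
the spaces of Tits diameter `π` and of rank `n`. -/
theorem result :
    ((∀ n, 3 ≤ n → TitsDiameterPiFlatClosing n) ↔ ∀ m, 2 ≤ m → MaximalFlatClosing m) ∧
    ∀ n, 1 ≤ n → (TitsDiameterPiFlatClosing (n + 1) → MaximalFlatClosing n) ∧
      (MaximalFlatClosing n → TitsDiameterPiFlatClosing n) := by
  refine ⟨⟨fun h m hm => closing_of_diam (by omega) (h (m + 1) (by omega)),
    fun h n hn => diam_of_closing (h n (by omega))⟩, fun n hn => ⟨closing_of_diam hn,
      diam_of_closing⟩⟩

end Pool.Agent.Results.MP_8eacf3_gt.FlatClosing
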